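import Mathlib

/-! MP_008206_co, linear range: the final arithmetic of helper47's text (03:13Z). -/

namespace SIFU

theorem lin_end {w k D d h kap inc f T : ℤ} (hw : 0 ≤ w) (hwk : w ≤ k - 3)
    (hD : 5 * (k - 2) ≤ D) (hd : 0 ≤ d) (hh : 0 ≤ h) (_hkap : 0 ≤ kap) (hkd : kap + d ≤ w)
    (hinc : 0 ≤ inc) (hf : 0 ≤ f) (hfD : f ≤ D - 1)
    (h5 : T < 0 → D * h < w * (k - 2)) (hF0 : d = 0 → f = 0)
    (hA : w - kap + w * d - w * h + (D - 1 - kap) * h - d * f ≤ T)
    (hC : w + w * d - 2 * kap - (w - inc) * h + f ≤ T)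
    (hB : w - kap + w * d - w * h + (w + 1 - d - inc) * f - (w - d) * (k - 1) ≤ T) :
    0 ≤ T := by
  by_contra hT
  have hT' : T ≤ -1 := by omega
  have h6 := h5 (by omega)
  have hk : 1 ≤ k - 2 := by omega
  have h7 : 5 * h < w := by
    by_contra hc
    have hc' : w ≤ 5 * h := by omega
    have e1 : w * (k - 2) ≤ (5 * h) * (k - 2) := mul_le_mul_of_nonneg_right hc' (by omega)
    have e2 : (5 * (k - 2)) * h ≤ D * h := mul_le_mul_of_nonneg_right hD hh
    nlinarith
  have hDw : 5 * (w + 1) ≤ D := by omega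
  rcases eq_or_lt_of_le hd with hd0 | hd1
  · have hf0 := hF0 hd0.symm
    subst hf0
    rw [← hd0] at hA hkd
    have e1 : 0 ≤ (D - 1 - kap - w) * h := mul_nonneg (by omega) hh
    nlinarith
  have hd1' : 1 ≤ d := hd1
  -- the first inequality, with kap = w - d
  have hA' : 1 + d + w * d + (D - 1 - 2 * w + d) * h ≤ d * f := by
    have e1 : (kap + d) * h ≤ w * h := mul_le_mul_of_nonneg_right hkd hh
    nlinarith
  have hC' : w + w * d - 2 * (w - d) - (w - inc) * h + f ≤ -1 := by
    have : kap ≤ w - d := by omega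
    linarith
  have hinch : 0 ≤ inc * h := mul_nonneg hinc hh
  rcases lt_or_ge h d with hhd | hhd
  · -- h < d
    have e1 : w * (h + 1) ≤ w * d := mul_le_mul_of_nonneg_left (by omega) hw
    nlinarith
  have hfl : D - w + d + 1 ≤ f := by
    by_contra hc
    have hc' : f ≤ D - w + d := by omega
    have e1 : d * f ≤ d * (D - w + d) := mul_le_mul_of_nonneg_left hc' hd
    have e2 : (D - 1 - 2 * w + d) * d ≤ (D - 1 - 2 * w + d) * h :=
      mul_le_mul_of_nonneg_left hhd (by omega)
    nlinarith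
  rcases eq_or_lt_of_le hhd with hhd' | hhd'
  · -- h = d
    subst hhd'
    nlinarith
  -- d + 1 ≤ h
  have hd5 : 5 * d < w := by omega
  have g1 : (h - d) * (D - 1 - 2 * w + d) ≤ d * w := by
    have e1 : d * f ≤ d * (D - 1) := mul_le_mul_of_nonneg_left hfD hd
    nlinarith [mul_nonneg hd hd]
  have g2 : inc * h ≤ w * (h - d) := by
    nlinarith
  have g3 : inc * (D - 1 - 2 * w) ≤ w * w := by
    have hDp : 0 ≤ D - 1 - 2 * w := by omega
    have e1 : (inc * h) * (D - 1 - 2 * w) ≤ (w * (h - d)) * (D - 1 - 2 * w) :=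
      mul_le_mul_of_nonneg_right g2 hDp
    have e2 : (h - d) * (D - 1 - 2 * w) ≤ d * w := by
      have : 0 ≤ (h - d) * d := mul_nonneg (by omega) hd
      nlinarith
    have e3 : w * ((h - d) * (D - 1 - 2 * w)) ≤ w * (d * w) := mul_le_mul_of_nonneg_left e2 hw
    have e4 : w * (d * w) ≤ w * (h * w) :=
      mul_le_mul_of_nonneg_left (mul_le_mul_of_nonneg_right (by omega) hw) hw
    have e5 : (inc * (D - 1 - 2 * w)) * h ≤ (w * w) * h := by nlinarith
    exact le_of_mul_le_mul_right e5 (by omega)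
  have g4 : 3 * inc < w := by
    by_contra hc
    have hc' : w ≤ 3 * inc := by omega
    have e1 : inc * (3 * w + 4) ≤ inc * (D - 1 - 2 * w) :=
      mul_le_mul_of_nonneg_left (by omega) hinc
    have e2 : w * w ≤ (3 * inc) * w := mul_le_mul_of_nonneg_right hc' hw
    have e3 : 0 < inc := by omega
    nlinarith
  -- the last inequality
  have hfl2 : 4 * (k - 2) + 3 ≤ f := by omega
  have g5 : 7 * w + 15 ≤ 15 * (w + 1 - d - inc) := by omega
  have g6 : (7 * w + 15) * (4 * (k - 2) + 3) ≤ (15 * (w + 1 - d - inc)) * f := by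
    apply mul_le_mul g5 hfl2 (by omega) (by omega)
  have g7 : (w - d) * (k - 1) ≤ w * (k - 1) := mul_le_mul_of_nonneg_right (by omega) (by omega)
  have g8 : w * (5 * h) ≤ w * w := mul_le_mul_of_nonneg_left (by omega) hw
  have g9 : w * w ≤ w * (k - 3) := mul_le_mul_of_nonneg_left hwk hw
  have g10 : 0 ≤ w * d := mul_nonneg hw hd
  nlinarith

end SIFU
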